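import Pool.Agent.helper30.LR.Parts

/-! Module D2 of MP_0ec205_nt, third round: values of the exponential sum over the ordinates at
`0`, `log p` and `log p - log q`. -/

noncomputable section

namespace Pool.Agent.helper29.LS

open Complex MeasureTheory Set Filter Topology ArithmeticFunction
open Pool.Agent.helper30.LR

/-! ### the prime part -/

/-- the summand of the prime part -/
def Fs (H x : ℝ) (n : ℕ) : ℝ := (vonMangoldt n : ℝ) / Real.sqrt n *
      (Real.exp (-(H ^ 2 * (Real.log n - x) ^ 2 / 4)) +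
        Real.exp (-(H ^ 2 * (Real.log n + x) ^ 2 / 4)))

theorem Fs_nonneg (H x : ℝ) (n : ℕ) : 0 ≤ Fs H x n := by
  have := vonMangoldt_nonneg (n := n)
  unfold Fs
  positivity

theorem Fs_le {H x δ : ℝ} (hδ : 0 ≤ δ) {n : ℕ}
    (hn : vonMangoldt n ≠ 0 → δ ≤ |Real.log n - x| ∧ δ ≤ |Real.log n + x|) :
    Fs H x n ≤ Real.exp (-(H ^ 2 * δ ^ 2 / 8)) * Fs (H / Real.sqrt 2) x n := by
  by_cases h0 : vonMangoldt n = 0
  · simp [Fs, h0]
  · obtain ⟨h1, h2⟩ := hn h0
    have h3 := vonMangoldt_nonneg (n := n)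
    have hs : (H / Real.sqrt 2) ^ 2 = H ^ 2 / 2 := by
      rw [div_pow, Real.sq_sqrt (by norm_num)]
    have key : ∀ y : ℝ, δ ≤ |y| → Real.exp (-(H ^ 2 * y ^ 2 / 4)) ≤
        Real.exp (-(H ^ 2 * δ ^ 2 / 8)) * Real.exp (-((H / Real.sqrt 2) ^ 2 * y ^ 2 / 4)) := by
      intro y hy
      rw [← Real.exp_add, hs]
      refine Real.exp_le_exp.2 ?_
      have h4 : δ ^ 2 ≤ y ^ 2 := by rw [← sq_abs y]; gcongr
      have h5 : H ^ 2 * δ ^ 2 ≤ H ^ 2 * y ^ 2 := by gcongr
      linarith
    unfold Fs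
    calc _ ≤ (vonMangoldt n : ℝ) / Real.sqrt n *
          (Real.exp (-(H ^ 2 * δ ^ 2 / 8)) *
              Real.exp (-((H / Real.sqrt 2) ^ 2 * (Real.log n - x) ^ 2 / 4)) +
            Real.exp (-(H ^ 2 * δ ^ 2 / 8)) *
              Real.exp (-((H / Real.sqrt 2) ^ 2 * (Real.log n + x) ^ 2 / 4))) := by
          have := key _ h1
          have := key _ h2
          gcongr
      _ = _ := by ring

/-- `|log a - log b| ≥ 1/(2b)` for distinct positive integers -/
theorem log_sep {a b : ℕ} (ha : 0 < a) (hb : 0 < b) (hab : a ≠ b) :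
    1 / (2 * (b : ℝ)) ≤ |Real.log a - Real.log b| := by
  have ha' : (0 : ℝ) < a := by exact_mod_cast ha
  have hb' : (0 : ℝ) < b := by exact_mod_cast hb
  have hb1 : (1 : ℝ) ≤ b := by exact_mod_cast hb
  rcases lt_or_gt_of_ne hab with h | h
  · have h1 := Real.add_one_le_exp (Real.log a - Real.log b)
    rw [Real.exp_sub, Real.exp_log ha', Real.exp_log hb'] at h1
    have h2 : (a : ℝ) / b ≤ 1 - 1 / b := by
      have : (a : ℝ) + 1 ≤ b := by exact_mod_cast h
      rw [div_le_iff₀ hb']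
      have e : (1 - 1 / (b : ℝ)) * b = b - 1 := by field_simp
      linarith
    have h3 : 1 / (2 * (b : ℝ)) ≤ 1 / b := by
      gcongr; linarith
    rw [abs_sub_comm]
    exact le_trans (by linarith) (le_abs_self _)
  · have h1 := Real.add_one_le_exp (Real.log b - Real.log a)
    rw [Real.exp_sub, Real.exp_log ha', Real.exp_log hb'] at h1
    have hab1 : (b : ℝ) + 1 ≤ a := by exact_mod_cast h
    have h2 : (b : ℝ) / a ≤ 1 - 1 / (2 * b) := by
      rw [div_le_iff₀ ha']
      have e : (1 - 1 / (2 * (b : ℝ))) * (b + 1) = b + 1 / 2 - 1 / (2 * b) := by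
        field_simp; ring
      have h4 : 1 / (2 * (b : ℝ)) ≤ 1 / 2 := by
        rw [div_le_div_iff₀ (by positivity) (by norm_num)]; linarith
      have h5 : (1 - 1 / (2 * (b : ℝ))) * (b + 1) ≤ (1 - 1 / (2 * (b : ℝ))) * a := by
        gcongr
        linarith
      linarith
    exact le_trans (by linarith) (le_abs_self _)

theorem evt {β : ℝ} (h1 : β < 1) (K : ℝ) :
    ∀ᶠ H : ℝ in atTop, K * (H ^ 2 * Real.exp (-(H ^ 2 * (1 / (2 * H ^ β)) ^ 2 / 8))) ≤ 1 := by
  have h2 : Tendsto (fun u : ℝ => u ^ (1 / (1 - β)) * Real.exp (-(1 / 32) * u)) atTop (𝓝 0) :=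
    tendsto_rpow_mul_exp_neg_mul_atTop_nhds_zero _ _ (by norm_num)
  have h3 : Tendsto (fun H : ℝ => H ^ (2 * (1 - β))) atTop atTop :=
    tendsto_rpow_atTop (by linarith)
  have h4 := (h2.comp h3).const_mul K
  rw [mul_zero] at h4
  filter_upwards [h4.eventually (ge_mem_nhds (show (0 : ℝ) < 1 by norm_num)),
    eventually_gt_atTop 0] with H hH hH0
  refine le_trans (le_of_eq ?_) hH
  simp only [Function.comp]
  have e1 : (H ^ (2 * (1 - β))) ^ (1 / (1 - β)) = H ^ 2 := by
    rw [← Real.rpow_mul hH0.le, ← Real.rpow_natCast]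
    congr 1
    have : 1 - β ≠ 0 := by linarith
    field_simp
    norm_num
  have e2 : H ^ 2 * (1 / (2 * H ^ β)) ^ 2 / 8 = 1 / 32 * H ^ (2 * (1 - β)) := by
    have : H ^ (2 * (1 - β)) = H ^ 2 / (H ^ β) ^ 2 := by
      rw [mul_sub, mul_one, Real.rpow_sub hH0, Real.rpow_two, mul_comm, Real.rpow_mul hH0.le,
        Real.rpow_two]
    rw [this]
    field_simp
    norm_num
  rw [e1, e2]
  congr 3
  ring

/-- the part of the prime sum at distance at least `1/(2H^β)` -/
theorem tail {β : ℝ} (h1 : β < 1) : ∃ H0 : ℝ, 8 ≤ H0 ∧ ∀ H : ℝ, H0 ≤ H → ∀ x : ℝ,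
    |x| ≤ Real.log H → ∀ g : ℕ → ℝ, (∀ n, 0 ≤ g n) →
    (∀ n, g n ≤ Fs H x n) →
    (∀ n, vonMangoldt n ≠ 0 → g n ≠ 0 → 1 / (2 * H ^ β) ≤ |Real.log n - x| ∧
      1 / (2 * H ^ β) ≤ |Real.log n + x|) →
    |H / (2 * Real.sqrt Real.pi) * ∑' n, g n| ≤ 1 := by
  obtain ⟨CP, hCP, hP⟩ := Pool.Agent.helper44.LRP.prime_bound
  obtain ⟨H1, hH1⟩ := (evt h1 (3 * CP)).exists_forall_of_atTop
  refine ⟨max 8 H1, le_max_left _ _, fun H hH x hx g g0 g1 g2 => ?_⟩
  have hH8 : 8 ≤ H := (le_max_left _ _).trans hH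
  have hH0 : 0 < H := by linarith
  have hE := hH1 H ((le_max_right _ _).trans hH)
  set δ := 1 / (2 * H ^ β) with hδ
  have hδ0 : 0 ≤ δ := by positivity
  have hs2 : Real.sqrt 2 ≤ 2 := by
    rw [Real.sqrt_le_left (by norm_num)]; norm_num
  have hs2' : 1 ≤ Real.sqrt 2 := by rw [Real.one_le_sqrt]; norm_num
  have hH4 : 4 ≤ H / Real.sqrt 2 := by
    rw [le_div_iff₀ (by positivity)]; nlinarith
  obtain ⟨hsum, hle⟩ := hP (H / Real.sqrt 2) hH4 x
  have hg : ∀ n, g n ≤ Real.exp (-(H ^ 2 * δ ^ 2 / 8)) * Fs (H / Real.sqrt 2) x n := by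
    intro n
    by_cases hgn : g n = 0
    · rw [hgn]
      have := Fs_nonneg (H / Real.sqrt 2) x n
      positivity
    · exact (g1 n).trans (Fs_le hδ0 fun hv => g2 n hv hgn)
  have hsum' : Summable fun n => Real.exp (-(H ^ 2 * δ ^ 2 / 8)) * Fs (H / Real.sqrt 2) x n :=
    Summable.mul_left _ hsum
  have hgs : Summable g := Summable.of_nonneg_of_le g0 hg hsum'
  have h0 : 0 ≤ ∑' n, g n := tsum_nonneg g0
  have h2 : ∑' n, g n ≤ Real.exp (-(H ^ 2 * δ ^ 2 / 8)) *
      (CP * (1 + |x|) * (Real.exp (-|x| / 2) + Real.exp (|x| / 2) / (H / Real.sqrt 2))) := by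
    calc ∑' n, g n ≤ ∑' n, Real.exp (-(H ^ 2 * δ ^ 2 / 8)) * Fs (H / Real.sqrt 2) x n :=
          hgs.tsum_le_tsum hg hsum'
      _ = Real.exp (-(H ^ 2 * δ ^ 2 / 8)) * ∑' n, Fs (H / Real.sqrt 2) x n := tsum_mul_left
      _ ≤ _ := by
          gcongr
          exact hle
  have hxx := abs_nonneg x
  have h3 : 1 + |x| ≤ H := by
    have := Real.log_le_sub_one_of_pos hH0
    linarith
  have h4 : Real.exp (-|x| / 2) ≤ 1 := Real.exp_le_one_iff.2 (by linarith)
  have h5 : Real.exp (|x| / 2) ≤ H := by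
    calc Real.exp (|x| / 2) ≤ Real.exp (Real.log H) := Real.exp_le_exp.2 (by linarith)
      _ = H := Real.exp_log hH0
  have h6 : Real.exp (|x| / 2) / (H / Real.sqrt 2) ≤ 2 := by
    rw [div_le_iff₀ (by positivity)]
    calc Real.exp (|x| / 2) ≤ H := h5
      _ = Real.sqrt 2 * (H / Real.sqrt 2) := by field_simp
      _ ≤ 2 * (H / Real.sqrt 2) := by gcongr
  have hs : 1 ≤ Real.sqrt Real.pi := by
    rw [Real.one_le_sqrt]; linarith [Real.pi_gt_three]
  have h7 : H / (2 * Real.sqrt Real.pi) ≤ H := by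
    rw [div_le_iff₀ (by positivity)]; nlinarith
  rw [abs_of_nonneg (by positivity)]
  calc H / (2 * Real.sqrt Real.pi) * ∑' n, g n
      ≤ H * (Real.exp (-(H ^ 2 * δ ^ 2 / 8)) * (CP * H * (1 + 2))) := by
        have h8 : ∑' n, g n ≤ Real.exp (-(H ^ 2 * δ ^ 2 / 8)) * (CP * H * (1 + 2)) := by
          refine h2.trans ?_
          gcongr
        gcongr
    _ = 3 * CP * (H ^ 2 * Real.exp (-(H ^ 2 * δ ^ 2 / 8))) := by ring
    _ ≤ 1 := hE

theorem BB_eq (hRH : RiemannHypothesis) {H : ℝ} (hH : 0 < H) (x : ℝ) :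
    BB H x = 1 / (2 * Real.pi) * Ar H x + 2 * Real.exp (1 / (4 * H ^ 2)) * Real.cosh (x / 2) -
      H / (2 * Real.sqrt Real.pi) * ∑' n, Fs H x n := by
  have h := EE_eq hRH hH x
  have h1 : ∑' n : ℕ, vonMangoldt n / Real.sqrt n * (2 * kk H x (Real.log n)) =
      H / (2 * Real.sqrt Real.pi) * ∑' n : ℕ, Fs H x n := by
    rw [← tsum_mul_left]
    refine tsum_congr fun n => ?_
    rw [kk, Fs]
    have : Real.sqrt Real.pi ≠ 0 := (Real.sqrt_pos.2 Real.pi_pos).ne'
    field_simp
    ring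
  rw [h1] at h
  unfold EE at h
  linarith

theorem pole_le {H : ℝ} (hH : 4 ≤ H) {x M : ℝ} (hM : Real.exp (|x| / 2) ≤ M) :
    |2 * Real.exp (1 / (4 * H ^ 2)) * Real.cosh (x / 2)| ≤ 6 * M := by
  have a1 : Real.exp (1 / (4 * H ^ 2)) ≤ 3 := by
    have : Real.exp (1 / (4 * H ^ 2)) ≤ Real.exp 1 := by
      refine Real.exp_le_exp.2 ?_
      rw [div_le_one (by positivity)]
      nlinarith
    linarith [Real.exp_one_lt_d9]
  have a2 : Real.cosh (x / 2) ≤ Real.exp (|x| / 2) := by
    have b1 : |x / 2| = |x| / 2 := by rw [abs_div, abs_two]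
    rw [← b1, ← Real.cosh_abs, Real.cosh_eq]
    have b2 : Real.exp (-|x / 2|) ≤ Real.exp |x / 2| :=
      Real.exp_le_exp.2 (by linarith [abs_nonneg (x / 2)])
    linarith
  have a3 := Real.cosh_pos (x / 2)
  rw [abs_of_nonneg (by positivity)]
  calc _ ≤ 2 * 3 * M := by
        have := a2.trans hM
        gcongr
    _ = _ := by ring

theorem arch_part {C H x : ℝ} (h : |Ar H x| ≤ C * Real.log H / |x|) :
    |1 / (2 * Real.pi) * Ar H x| ≤ C * (Real.log H / |x|) := by
  rw [abs_mul, abs_of_pos (by positivity)]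
  have h1 : 1 / (2 * Real.pi) ≤ 1 := by
    rw [div_le_one (by positivity)]; linarith [Real.pi_gt_three]
  have h2 := abs_nonneg (Ar H x)
  calc _ ≤ 1 * |Ar H x| := by gcongr
    _ ≤ _ := by rw [one_mul, ← mul_div_assoc]; exact h

/-! ### the archimedean part at `0` -/

theorem abs_rpow_int : Integrable fun u : ℝ => |u| ^ (-(1 / 2) : ℝ) * Real.exp (-u ^ 2) := by
  have h1 : IntegrableOn (fun u : ℝ => u ^ (-(1 / 2) : ℝ) * Real.exp (-1 * u ^ 2)) (Ioi 0) :=
    integrableOn_rpow_mul_exp_neg_mul_sq one_pos (by norm_num)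
  have h2 : IntegrableOn (fun u : ℝ => |u| ^ (-(1 / 2) : ℝ) * Real.exp (-u ^ 2)) (Ioi 0) := by
    refine h1.congr_fun (fun u hu => ?_) measurableSet_Ioi
    simp only
    rw [abs_of_pos hu, neg_one_mul]
  have h3 : IntegrableOn (fun u : ℝ => |u| ^ (-(1 / 2) : ℝ) * Real.exp (-u ^ 2)) (Iic 0) := by
    rw [← Measure.map_neg_eq_self (volume : Measure ℝ)]
    let m : MeasurableEmbedding fun x : ℝ => -x := (Homeomorph.neg ℝ).measurableEmbedding
    rw [m.integrableOn_map_iff]
    simp only [Function.comp_def, abs_neg, neg_preimage, neg_Iic, neg_zero, even_two, Even.neg_pow]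
    exact Iff.mpr integrableOn_Ici_iff_integrableOn_Ioi h2
  rw [← integrableOn_univ, ← Iic_union_Ioi (a := (0 : ℝ))]
  exact h3.union h2

/-- the dominating function -/
def Gd (u : ℝ) : ℝ := Real.exp (-u ^ 2) * 37 + Real.exp (-u ^ 2) * |u| +
  2 * (|u| ^ (-(1 / 2) : ℝ) * Real.exp (-u ^ 2))

theorem Gd_int : Integrable Gd := by
  have h0 : Integrable fun u : ℝ => Real.exp (-u ^ 2) := by
    have := integrable_exp_neg_mul_sq (b := 1) one_pos
    simpa using this
  have h1 : Integrable fun u : ℝ => Real.exp (-u ^ 2) * |u| := by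
    have := (integrable_mul_exp_neg_mul_sq (b := 1) one_pos).norm
    refine this.congr (Eventually.of_forall fun u => ?_)
    simp only [norm_mul, Real.norm_eq_abs, Real.abs_exp]
    rw [mul_comm, neg_one_mul]
  exact ((h0.mul_const 37).add h1).add (abs_rpow_int.const_mul 2)

theorem gg_scaled {H t : ℝ} (hH : 1 ≤ H) (ht : t ≠ 0) :
    Real.exp (-(t ^ 2 / H ^ 2)) * |gg t - Real.log H| ≤ Gd (t / H) := by
  have hH0 : 0 < H := by linarith
  have ht0 : 0 < |t| := abs_pos.2 ht
  have h1 := gg_log t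
  have hp : 0 < |t| + 1 := by linarith
  have e0 : Real.log (|t| + 1) - Real.log H = Real.log ((|t| + 1) / H) := by
    rw [Real.log_div hp.ne' hH0.ne']
  have h2 : Real.log ((|t| + 1) / H) ≤ |t / H| + 1 := by
    have := Real.log_le_sub_one_of_pos (x := (|t| + 1) / H) (by positivity)
    rw [abs_div, abs_of_pos hH0]
    have h3 : (|t| + 1) / H ≤ |t| / H + 1 := by
      rw [add_div]
      have : 1 / H ≤ 1 := by rw [div_le_one hH0]; exact hH
      linarith
    linarith
  have h3 : -(2 * |t / H| ^ (-(1 / 2) : ℝ)) ≤ Real.log ((|t| + 1) / H) := by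
    have hu : 0 < |t / H| := abs_pos.2 (div_ne_zero ht hH0.ne')
    have h4 : |t / H| ≤ (|t| + 1) / H := by
      rw [abs_div, abs_of_pos hH0]
      gcongr
      linarith
    have h5 := Real.log_le_log hu h4
    have h6 := Real.log_le_sub_one_of_pos (x := |t / H| ^ (-(1 / 2) : ℝ)) (by positivity)
    rw [Real.log_rpow hu] at h6
    linarith
  have h4 : |Real.log ((|t| + 1) / H)| ≤ |t / H| + 1 + 2 * |t / H| ^ (-(1 / 2) : ℝ) := by
    have h5 : 0 ≤ |t / H| ^ (-(1 / 2) : ℝ) := by positivity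
    have h6 := abs_nonneg (t / H)
    rw [abs_le]
    constructor <;> linarith
  have h5 : |gg t - Real.log H| ≤ 37 + |t / H| + 2 * |t / H| ^ (-(1 / 2) : ℝ) := by
    have e : gg t - Real.log H = (gg t - Real.log (|t| + 1)) + Real.log ((|t| + 1) / H) := by
      rw [← e0]; ring
    rw [e]
    exact (abs_add_le _ _).trans (by linarith)
  have e2 : -(t ^ 2 / H ^ 2) = -(t / H) ^ 2 := by rw [div_pow]
  rw [e2]
  unfold Gd
  have h6 := Real.exp_pos (-(t / H) ^ 2)
  calc Real.exp (-(t / H) ^ 2) * |gg t - Real.log H|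
      ≤ Real.exp (-(t / H) ^ 2) * (37 + |t / H| + 2 * |t / H| ^ (-(1 / 2) : ℝ)) := by gcongr
    _ = _ := by ring

theorem gauss_gg_int {H : ℝ} (hH : 0 < H) :
    Integrable fun t : ℝ => Real.exp (-(t ^ 2 / H ^ 2)) * gg t := by
  have hb : ∀ t : ℝ, ‖Real.exp (-(t ^ 2 / H ^ 2)) * gg t‖ ≤
      37 * (1 + 2 / (1 / (2 * H ^ 2))) ^ 2 * Real.exp (-(1 / (2 * H ^ 2) * t ^ 2)) := by
    intro t
    have h1 := gauss_poly (c := 1 / (2 * H ^ 2)) (by positivity) t
    have h2 := gg_abs t
    have e : Real.exp (-(t ^ 2 / H ^ 2)) = Real.exp (-(1 / (2 * H ^ 2) * t ^ 2)) *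
        Real.exp (-(1 / (2 * H ^ 2) * t ^ 2)) := by
      rw [← Real.exp_add]
      exact congrArg Real.exp (by field_simp; ring)
    have e2 : Real.exp (1 / (2 * H ^ 2) * t ^ 2) * Real.exp (-(1 / (2 * H ^ 2) * t ^ 2)) = 1 := by
      rw [← Real.exp_add]; simp
    rw [norm_mul, Real.norm_eq_abs, Real.norm_eq_abs, Real.abs_exp]
    calc Real.exp (-(t ^ 2 / H ^ 2)) * |gg t| ≤ Real.exp (-(t ^ 2 / H ^ 2)) *
          (37 * ((1 + 2 / (1 / (2 * H ^ 2))) ^ 2 * Real.exp (1 / (2 * H ^ 2) * t ^ 2))) := by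
          gcongr
          exact h2.trans (by gcongr)
      _ = 37 * (1 + 2 / (1 / (2 * H ^ 2))) ^ 2 *
          (Real.exp (1 / (2 * H ^ 2) * t ^ 2) * Real.exp (-(1 / (2 * H ^ 2) * t ^ 2))) *
          Real.exp (-(1 / (2 * H ^ 2) * t ^ 2)) := by rw [e]; ring
      _ = _ := by rw [e2, mul_one]
  have hm : AEStronglyMeasurable (fun t : ℝ => Real.exp (-(t ^ 2 / H ^ 2)) * gg t) := by
    have := gg_continuous
    exact Continuous.aestronglyMeasurable (by fun_prop)
  exact Integrable.mono' ((gauss_int (by positivity)).const_mul _) hm (Eventually.of_forall hb)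

theorem gauss_eq {H : ℝ} (hH : 0 < H) :
    Integrable (fun t : ℝ => Real.exp (-(t ^ 2 / H ^ 2))) ∧
    ∫ t : ℝ, Real.exp (-(t ^ 2 / H ^ 2)) = H * Real.sqrt Real.pi := by
  have e : (fun t : ℝ => Real.exp (-(t ^ 2 / H ^ 2))) = fun t : ℝ =>
      Real.exp (-(1 / H ^ 2) * t ^ 2) := by
    funext t
    exact congrArg Real.exp (by ring)
  refine ⟨?_, ?_⟩
  · rw [e]
    exact integrable_exp_neg_mul_sq (by positivity)
  · rw [e, integral_gaussian]
    have : Real.pi / (1 / H ^ 2) = H ^ 2 * Real.pi := by field_simp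
    rw [this, Real.sqrt_mul (by positivity), Real.sqrt_sq hH.le]

theorem Ar_zero {H : ℝ} (hH : 1 ≤ H) :
    |Ar H 0 - H * Real.sqrt Real.pi * Real.log H| ≤ (∫ u, Gd u) * H := by
  have hH0 : 0 < H := by linarith
  obtain ⟨i1, e1⟩ := gauss_eq hH0
  have i2 := gauss_gg_int hH0
  have e2 : Ar H 0 - H * Real.sqrt Real.pi * Real.log H =
      ∫ t : ℝ, Real.exp (-(t ^ 2 / H ^ 2)) * (gg t - Real.log H) := by
    have : (fun t : ℝ => Real.exp (-(t ^ 2 / H ^ 2)) * (gg t - Real.log H)) = fun t : ℝ =>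
        Real.exp (-(t ^ 2 / H ^ 2)) * gg t - Real.exp (-(t ^ 2 / H ^ 2)) * Real.log H := by
      funext t; ring
    rw [this, integral_sub i2 (i1.mul_const _), integral_mul_const, e1]
    unfold Ar
    simp
  rw [e2]
  have e3 : (∫ u, Gd u) * H = ∫ t, Gd (t / H) := by
    rw [Measure.integral_comp_div, abs_of_pos hH0, smul_eq_mul, mul_comm]
  rw [e3, ← Real.norm_eq_abs]
  refine norm_integral_le_of_norm_le (Gd_int.comp_div hH0.ne') ?_
  have h0 : ∀ᵐ t : ℝ, t ≠ 0 := by
    have : (volume : Measure ℝ) {0} = 0 := by simp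
    exact compl_mem_ae_iff.2 this
  filter_upwards [h0] with t ht
  rw [norm_mul, Real.norm_eq_abs, Real.norm_eq_abs, Real.abs_exp]
  exact gg_scaled hH ht

theorem Gd_integral_nonneg : 0 ≤ ∫ u, Gd u := by
  refine integral_nonneg fun u => ?_
  unfold Gd
  simp only [Pi.zero_apply]
  positivity

/-! ### the three values -/

theorem two_le_of_vm {n : ℕ} (h : vonMangoldt n ≠ 0) : 2 ≤ n := by
  by_contra h1
  have h2 : n = 0 ∨ n = 1 := by omega
  rcases h2 with h2 | h2
  · exact h (by rw [h2]; simp)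
  · exact h (by rw [h2]; simp)

theorem val_zero (hRH : RiemannHypothesis) : ∃ C H0 : ℝ, 0 < C ∧ ∀ H : ℝ, H0 ≤ H →
    |BB H 0 - H / (2 * Real.sqrt Real.pi) * Real.log H| ≤ C * H := by
  obtain ⟨H0, h8, hT⟩ := tail (β := 0) (by norm_num)
  refine ⟨(∫ u, Gd u) + 7, H0, by linarith [Gd_integral_nonneg], fun H hH => ?_⟩
  have hH8 : 8 ≤ H := h8.trans hH
  have hH0 : 0 < H := by linarith
  have h1 := hT H hH 0 (by simpa using Real.log_nonneg (by linarith)) (Fs H 0)
    (Fs_nonneg H 0) (fun n => le_rfl) (fun n hv _ => by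
      have h2 := two_le_of_vm hv
      have h3 := log_sep (a := n) (b := 1) (by omega) one_pos (by omega)
      simp only [Nat.cast_one, Real.log_one, mul_one, sub_zero] at h3
      simpa using h3)
  rw [BB_eq hRH hH0]
  have h2 := pole_le (H := H) (x := 0) (M := 1) (by linarith) (by simp)
  have h3 := Ar_zero (H := H) (by linarith)
  have e : 1 / (2 * Real.pi) * Ar H 0 + 2 * Real.exp (1 / (4 * H ^ 2)) * Real.cosh (0 / 2) -
      H / (2 * Real.sqrt Real.pi) * ∑' n, Fs H 0 n - H / (2 * Real.sqrt Real.pi) * Real.log H =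
      1 / (2 * Real.pi) * (Ar H 0 - H * Real.sqrt Real.pi * Real.log H) +
      2 * Real.exp (1 / (4 * H ^ 2)) * Real.cosh (0 / 2) -
      H / (2 * Real.sqrt Real.pi) * ∑' n, Fs H 0 n := by
    have h4 : H / (2 * Real.sqrt Real.pi) * Real.log H =
        1 / (2 * Real.pi) * (H * Real.sqrt Real.pi * Real.log H) := by
      have h5 : Real.sqrt Real.pi ≠ 0 := (Real.sqrt_pos.2 Real.pi_pos).ne'
      have h6 : Real.pi = Real.sqrt Real.pi * Real.sqrt Real.pi :=
        (Real.mul_self_sqrt Real.pi_pos.le).symm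
      have h7 : Real.pi ≠ 0 := Real.pi_pos.ne'
      rw [div_mul_eq_mul_div, one_div_mul_eq_div, div_eq_div_iff (by positivity) (by positivity)]
      calc H * Real.log H * (2 * Real.pi) =
          H * Real.log H * (2 * (Real.sqrt Real.pi * Real.sqrt Real.pi)) := by rw [← h6]
        _ = _ := by ring
    rw [h4]; ring
  rw [e]
  have h4 : |1 / (2 * Real.pi) * (Ar H 0 - H * Real.sqrt Real.pi * Real.log H)| ≤
      (∫ u, Gd u) * H := by
    rw [abs_mul, abs_of_pos (by positivity)]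
    have h5 : 1 / (2 * Real.pi) ≤ 1 := by
      rw [div_le_one (by positivity)]; linarith [Real.pi_gt_three]
    calc _ ≤ 1 * ((∫ u, Gd u) * H) := by gcongr
      _ = _ := one_mul _
  have h5 := abs_le.1 h1
  have h6 := abs_le.1 h2
  have h7 := abs_le.1 h4
  rw [abs_le]
  constructor <;> nlinarith [h5.1, h5.2, h6.1, h6.2, h7.1, h7.2]

theorem log_le_of {β H : ℝ} (h1 : β < 1) (hH : 1 ≤ H) {p : ℕ} (hp : 0 < p)
    (hpH : (p : ℝ) ≤ H ^ β) : Real.log p ≤ Real.log H := by
  have hp' : (0 : ℝ) < p := by exact_mod_cast hp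
  have h2 : H ^ β ≤ H ^ (1 : ℝ) := Real.rpow_le_rpow_of_exponent_le hH h1.le
  rw [Real.rpow_one] at h2
  exact Real.log_le_log hp' (hpH.trans h2)

theorem sep_le {β H : ℝ} (hH : 0 < H) {b : ℕ} (hb : 0 < b) (hbH : (b : ℝ) ≤ H ^ β) :
    1 / (2 * H ^ β) ≤ 1 / (2 * (b : ℝ)) := by
  have hb' : (0 : ℝ) < b := by exact_mod_cast hb
  gcongr

theorem val_prime (hA : ∃ C : ℝ, 0 < C ∧ ∀ H : ℝ, 2 ≤ H → ∀ x : ℝ, x ≠ 0 →
      |Ar H x| ≤ C * Real.log H / |x|)
    (hRH : RiemannHypothesis) {β : ℝ} (h0 : 0 < β) (h1 : β < 1) :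
    ∃ C H0 : ℝ, 0 < C ∧ ∀ H : ℝ, H0 ≤ H → ∀ p : ℕ, p.Prime → (p : ℝ) ≤ H ^ β →
      |BB H (Real.log p) + H / (2 * Real.sqrt Real.pi) * (Real.log p / Real.sqrt p)| ≤
        C * (Real.sqrt p + Real.log H) := by
  obtain ⟨CA, hCA, hA⟩ := hA
  obtain ⟨H0, h8, hT⟩ := tail h1
  obtain ⟨CP, hCP, hP⟩ := Pool.Agent.helper44.LRP.prime_bound
  refine ⟨2 * CA + 8, H0, by positivity, fun H hH p hp hpH => ?_⟩
  have hH8 : 8 ≤ H := h8.trans hH
  have hH0 : 0 < H := by linarith
  have hp2 : (2 : ℝ) ≤ p := by exact_mod_cast hp.two_le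
  have hp0 : (0 : ℝ) < p := by linarith
  have hlp : 0 < Real.log p := Real.log_pos (by linarith)
  have hlpH : Real.log p ≤ Real.log H := log_le_of h1 (by linarith) hp.pos hpH
  have hlH : 1 ≤ Real.log H := by
    rw [Real.le_log_iff_exp_le hH0]
    linarith [Real.exp_one_lt_d9]
  have hl2 : 1 / 2 ≤ Real.log p := by
    have h3 := log_sep (a := p) (b := 1) hp.pos one_pos hp.one_lt.ne'
    simp only [Nat.cast_one, Real.log_one, mul_one, sub_zero] at h3
    rwa [abs_of_pos hlp] at h3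
  have habs : |Real.log p| = Real.log p := abs_of_pos hlp
  have hsum : Summable (Fs H (Real.log p)) := (hP H (by linarith) (Real.log p)).1
  set D : ℝ := Real.log p / Real.sqrt p with hD
  have hD0 : 0 ≤ D := by positivity
  -- split off the main term
  let g : ℕ → ℝ := fun n => if n = p then
    D * Real.exp (-(H ^ 2 * (Real.log p + Real.log p) ^ 2 / 4)) else Fs H (Real.log p) n
  have hFp : Fs H (Real.log p) p = D + D * Real.exp (-(H ^ 2 * (Real.log p + Real.log p) ^ 2 / 4)) := by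
    unfold Fs
    rw [vonMangoldt_apply_prime hp]
    simp only [sub_self]
    rw [hD]
    norm_num
    ring
  have hgs : ∑' n, Fs H (Real.log p) n = D + ∑' n, g n := by
    have h3 : ∀ n, Fs H (Real.log p) n = (if n = p then D else 0) + g n := by
      intro n
      by_cases hn : n = p
      · simp only [g, hn, if_true]
        exact hFp
      · simp only [g, hn, if_false, zero_add]
    have h4 : Summable fun n : ℕ => if n = p then D else 0 :=
      (hasSum_ite_eq p D).summable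
    have h5 : Summable g := by
      have := hsum.sub h4
      refine this.congr fun n => ?_
      rw [h3 n]; ring
    rw [tsum_congr h3, h4.tsum_add h5, tsum_ite_eq]
  have hg0 : ∀ n, 0 ≤ g n := by
    intro n
    by_cases hn : n = p
    · simp only [g, hn, if_true]; positivity
    · simp only [g, hn, if_false]; exact Fs_nonneg _ _ _
  -- the second half of the main term is tiny: treat it separately
  let g1 : ℕ → ℝ := fun n => if n = p then 0 else Fs H (Real.log p) n
  have hg1 := hT H hH (Real.log p) (by rw [habs]; exact hlpH) g1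
    (fun n => by
      by_cases hn : n = p
      · simp [g1, hn]
      · simp only [g1, hn, if_false]; exact Fs_nonneg _ _ _)
    (fun n => by
      by_cases hn : n = p
      · simp only [g1, hn, if_true]; exact Fs_nonneg _ _ _
      · simp [g1, hn])
    (fun n hv hn => by
      have hnp : n ≠ p := by
        intro h; apply hn; simp [g1, h]
      have hn2 := two_le_of_vm hv
      have hn0 : (0 : ℝ) < n := by exact_mod_cast (by omega : 0 < n)
      constructor
      · exact (sep_le hH0 hp.pos hpH).trans (log_sep (by omega) hp.pos hnp)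
      · have h3 := log_sep (a := n * p) (b := 1) (Nat.mul_pos (by omega) hp.pos) one_pos (by
          have := hp.two_le
          nlinarith)
        simp only [Nat.cast_one, Real.log_one, mul_one, sub_zero, Nat.cast_mul] at h3
        rw [Real.log_mul hn0.ne' hp0.ne'] at h3
        refine le_trans ?_ h3
        have h4 : (1 : ℝ) ≤ H ^ β := Real.one_le_rpow (by linarith) h0.le
        gcongr
        linarith)
  have hg1s : ∑' n, g n = D * Real.exp (-(H ^ 2 * (Real.log p + Real.log p) ^ 2 / 4)) +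
      ∑' n, g1 n := by
    set D2 := D * Real.exp (-(H ^ 2 * (Real.log p + Real.log p) ^ 2 / 4))
    have h3 : ∀ n, g n = (if n = p then D2 else 0) + g1 n := by
      intro n
      by_cases hn : n = p
      · simp only [g, g1, hn, if_true, add_zero]
        rfl
      · simp only [g, g1, hn, if_false, zero_add]
    have h4 : Summable fun n : ℕ => if n = p then D2 else 0 :=
      (hasSum_ite_eq p D2).summable
    have h5 : Summable g1 := by
      refine Summable.of_nonneg_of_le (fun n => ?_) (fun n => ?_) hsum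
      · by_cases hn : n = p
        · simp [g1, hn]
        · simp only [g1, hn, if_false]; exact Fs_nonneg _ _ _
      · by_cases hn : n = p
        · simp only [g1, hn, if_true]; exact Fs_nonneg _ _ _
        · simp [g1, hn]
    rw [tsum_congr h3, h4.tsum_add h5, tsum_ite_eq]
  have hsp : 1 ≤ Real.sqrt p := by rw [Real.one_le_sqrt]; linarith
  have hs : 1 ≤ Real.sqrt Real.pi := by
    rw [Real.one_le_sqrt]; linarith [Real.pi_gt_three]
  -- the tiny term
  have htiny : |H / (2 * Real.sqrt Real.pi) *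
      (D * Real.exp (-(H ^ 2 * (Real.log p + Real.log p) ^ 2 / 4)))| ≤ Real.log H := by
    have h3 : H * Real.exp (-(H ^ 2 * (Real.log p + Real.log p) ^ 2 / 4)) ≤ 1 := by
      have h4 : H ^ 2 * 1 / 4 ≤ H ^ 2 * (Real.log p + Real.log p) ^ 2 / 4 := by
        gcongr
        nlinarith
      have h5 : H ≤ Real.exp (H ^ 2 * (Real.log p + Real.log p) ^ 2 / 4) := by
        have h6 := Real.add_one_le_exp (H ^ 2 * (Real.log p + Real.log p) ^ 2 / 4)
        nlinarith
      rw [Real.exp_neg, ← div_eq_mul_inv, div_le_one (Real.exp_pos _)]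
      exact h5
    have h4 : H / (2 * Real.sqrt Real.pi) ≤ H := by
      rw [div_le_iff₀ (by positivity)]; nlinarith
    have h5 : D ≤ Real.log H := by
      rw [hD]
      exact (div_le_self hlp.le hsp).trans hlpH
    rw [abs_of_nonneg (by positivity)]
    calc _ ≤ H * (D * Real.exp (-(H ^ 2 * (Real.log p + Real.log p) ^ 2 / 4))) := by gcongr
      _ = D * (H * Real.exp (-(H ^ 2 * (Real.log p + Real.log p) ^ 2 / 4))) := by ring
      _ ≤ Real.log H * 1 := by gcongr
      _ = _ := mul_one _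
  have hpole := pole_le (H := H) (x := Real.log p) (M := Real.sqrt p) (by linarith) (by
    rw [habs, Real.exp_half, Real.exp_log hp0])
  have harch := arch_part (hA H (by linarith) (Real.log p) hlp.ne')
  have harch2 : CA * (Real.log H / |Real.log p|) ≤ 2 * CA * Real.log H := by
    rw [habs]
    have : Real.log H / Real.log p ≤ 2 * Real.log H := by
      rw [div_le_iff₀ hlp]
      nlinarith
    nlinarith
  rw [BB_eq hRH hH0, hgs, hg1s]
  have h5 := abs_le.1 hg1
  have h6 := abs_le.1 hpole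
  have h7 := abs_le.1 (harch.trans harch2)
  have h8 := abs_le.1 htiny
  have e : 1 / (2 * Real.pi) * Ar H (Real.log p) +
      2 * Real.exp (1 / (4 * H ^ 2)) * Real.cosh (Real.log p / 2) -
      H / (2 * Real.sqrt Real.pi) * (D + (D * Real.exp (-(H ^ 2 * (Real.log p + Real.log p) ^ 2 / 4)) +
        ∑' n, g1 n)) + H / (2 * Real.sqrt Real.pi) * D =
      1 / (2 * Real.pi) * Ar H (Real.log p) +
      2 * Real.exp (1 / (4 * H ^ 2)) * Real.cosh (Real.log p / 2) -
      H / (2 * Real.sqrt Real.pi) * (D * Real.exp (-(H ^ 2 * (Real.log p + Real.log p) ^ 2 / 4))) -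
      H / (2 * Real.sqrt Real.pi) * ∑' n, g1 n := by ring
  rw [e, abs_le]
  have hCs : 0 ≤ CA * Real.sqrt p := by positivity
  constructor <;> nlinarith [h5.1, h5.2, h6.1, h6.2, h7.1, h7.2, h8.1, h8.2]

theorem val_ratio (hA : ∃ C : ℝ, 0 < C ∧ ∀ H : ℝ, 2 ≤ H → ∀ x : ℝ, x ≠ 0 →
      |Ar H x| ≤ C * Real.log H / |x|)
    (hRH : RiemannHypothesis) {β : ℝ} (h0 : 0 < β) (h1 : β < 1) :
    ∃ C H0 : ℝ, 0 < C ∧ ∀ H : ℝ, H0 ≤ H → ∀ p q : ℕ, p.Prime → q.Prime → p ≠ q →
      (p : ℝ) ≤ H ^ β → (q : ℝ) ≤ H ^ β →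
      |BB H (Real.log p - Real.log q)| ≤ C * (Real.sqrt (p / q) + Real.sqrt (q / p) +
        Real.log H / |Real.log p - Real.log q|) := by
  obtain ⟨CA, hCA, hA⟩ := hA
  obtain ⟨H0, h8, hT⟩ := tail h1
  refine ⟨CA + 7, H0, by positivity, fun H hH p q hp hq hpq hpH hqH => ?_⟩
  have hH8 : 8 ≤ H := h8.trans hH
  have hH0 : 0 < H := by linarith
  have hp2 : (2 : ℝ) ≤ p := by exact_mod_cast hp.two_le
  have hp0 : (0 : ℝ) < p := by linarith
  have hq2 : (2 : ℝ) ≤ q := by exact_mod_cast hq.two_le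
  have hq0 : (0 : ℝ) < q := by linarith
  have hlp : 0 < Real.log p := Real.log_pos (by linarith)
  have hlq : 0 < Real.log q := Real.log_pos (by linarith)
  have hlpH : Real.log p ≤ Real.log H := log_le_of h1 (by linarith) hp.pos hpH
  have hlqH : Real.log q ≤ Real.log H := log_le_of h1 (by linarith) hq.pos hqH
  set x := Real.log p - Real.log q with hx
  have hxH : |x| ≤ Real.log H := by
    rw [abs_le]; constructor <;> linarith
  have hx0 : x ≠ 0 := by
    have h3 := log_sep hp.pos hq.pos hpq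
    have h4 : (0 : ℝ) < 1 / (2 * (q : ℝ)) := by positivity
    exact abs_pos.1 (lt_of_lt_of_le h4 h3)
  have hprime := hT H hH x hxH (Fs H x) (Fs_nonneg H x) (fun n => le_rfl) (fun n hv _ => by
    have hn2 := two_le_of_vm hv
    have hn0 : (0 : ℝ) < n := by exact_mod_cast (by omega : 0 < n)
    have hne : ∀ r s : ℕ, r.Prime → s.Prime → n * s ≠ r := by
      intro r s hr hs h
      rcases (Nat.prime_mul_iff.1 (h ▸ hr)) with ⟨_, h4⟩ | ⟨_, h4⟩
      · have := hs.two_le; omega
      · omega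
    constructor
    · have h3 := log_sep (a := n * q) (b := p) (Nat.mul_pos (by omega) hq.pos) hp.pos (hne p q hp hq)
      rw [Nat.cast_mul, Real.log_mul hn0.ne' hq0.ne'] at h3
      have e : Real.log n - x = Real.log n + Real.log q - Real.log p := by rw [hx]; ring
      rw [e]
      exact (sep_le hH0 hp.pos hpH).trans h3
    · have h3 := log_sep (a := n * p) (b := q) (Nat.mul_pos (by omega) hp.pos) hq.pos (hne q p hq hp)
      rw [Nat.cast_mul, Real.log_mul hn0.ne' hp0.ne'] at h3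
      have e : Real.log n + x = Real.log n + Real.log p - Real.log q := by rw [hx]; ring
      rw [e]
      exact (sep_le hH0 hq.pos hqH).trans h3)
  have hM : Real.exp (|x| / 2) ≤ Real.sqrt (p / q) + Real.sqrt (q / p) := by
    have e1 : Real.exp (x / 2) = Real.sqrt (p / q) := by
      rw [Real.exp_half, hx, Real.exp_sub, Real.exp_log hp0, Real.exp_log hq0]
    have e2 : Real.exp (-x / 2) = Real.sqrt (q / p) := by
      rw [Real.exp_half, hx, neg_sub, Real.exp_sub, Real.exp_log hp0, Real.exp_log hq0]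
    rw [← e1, ← e2]
    rcases abs_cases x with ⟨h3, _⟩ | ⟨h3, _⟩
    · rw [h3]; linarith [Real.exp_pos (-x / 2)]
    · rw [h3]; linarith [Real.exp_pos (x / 2)]
  have hpole := pole_le (H := H) (x := x) (by linarith) hM
  have harch := arch_part (hA H (by linarith) x hx0)
  have hone : 1 ≤ Real.sqrt (p / q) + Real.sqrt (q / p) := by
    refine le_trans ?_ hM
    rw [Real.one_le_exp_iff]
    positivity
  rw [BB_eq hRH hH0]
  have h5 := abs_le.1 hprime
  have h6 := abs_le.1 hpole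
  have h7 := abs_le.1 harch
  have hL : 0 ≤ Real.log H / |x| := by
    have : 0 ≤ Real.log H := by linarith
    positivity
  have hS : 0 ≤ CA * (Real.sqrt (p / q) + Real.sqrt (q / p)) := by positivity
  rw [abs_le]
  constructor <;> nlinarith [h5.1, h5.2, h6.1, h6.2, h7.1, h7.2]

end Pool.Agent.helper29.LS
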